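import Mathlib
import Pool.Agent.H.MP_5cf805_al.A

set_option autoImplicit false
open Submodule Cardinal Pool.Agent.H.MP_5cf805_al

namespace Pool.Agent.Results.MP_5cf805_al.Filters

universe u v
variable {K : Type v} [Field K] {V : Type u} [AddCommGroup V] [Module K V]

def IsFil (F : Set (Submodule K V)) : Prop :=
  ⊤ ∈ F ∧ ⊥ ∉ F ∧ (∀ U ∈ F, ∀ W, U ≤ W → W ∈ F) ∧ ∀ U ∈ F, ∀ W ∈ F, U ⊓ W ∈ F

/-- the translate of F by g -/
def tr (F : Set (Submodule K V)) (g : V ≃ₗ[K] V) : Set (Submodule K V) :=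
  Submodule.map g.toLinearMap '' F

/-- GL(V) is k-transitive on the translates of F -/
def KTrans (F : Set (Submodule K V)) (k : ℕ) : Prop :=
  ∀ a b : Fin k → V ≃ₗ[K] V, Function.Injective (fun i => tr F (a i)) →
    Function.Injective (fun i => tr F (b i)) → ∃ g, ∀ i, tr (tr F (a i)) g = tr F (b i)

variable {F : Set (Submodule K V)}

lemma mem_tr {g : V ≃ₗ[K] V} {U : Submodule K V} : U ∈ tr F g ↔ U.comap g.toLinearMap ∈ F :=
  ⟨by rintro ⟨X, hX, rfl⟩; rwa [comap_map_eq_of_injective g.injective],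
    fun h => ⟨_, h, map_comap_eq_of_surjective g.surjective _⟩⟩

lemma tr_tr (a g : V ≃ₗ[K] V) : tr (tr F a) g = tr F (a.trans g) := by
  ext U; simp only [mem_tr]; rfl

lemma agree (hF : IsFil F) {X : Submodule K V} (hX : X ∈ F) {a b : V ≃ₗ[K] V}
    (h : ∀ x ∈ X, a x = b x) : tr F a = tr F b := by
  have key : ∀ a b : V ≃ₗ[K] V, (∀ x ∈ X, a x = b x) → tr F a ⊆ tr F b := fun a b h U hU =>
    mem_tr.2 (hF.2.2.1 _ (hF.2.2.2 _ (mem_tr.1 hU) _ hX) _ fun x hx => by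
      have : a x ∈ U := hx.1
      show b x ∈ U
      rwa [← h x hx.2])
  exact (key a b h).antisymm (key b a fun x hx => (h x hx).symm)

lemma mem_max (hF : Maximal IsFil F) {Y : Submodule K V} (h : ∀ U ∈ F, ¬ Disjoint Y U) :
    Y ∈ F := by
  have h1 : IsFil {Z | ∃ U ∈ F, Y ⊓ U ≤ Z} :=
    ⟨⟨⊤, hF.1.1, le_top⟩, fun ⟨U, hU, hl⟩ => h U hU (disjoint_iff_inf_le.2 hl),
      fun _ ⟨U, hU, hl⟩ _ hW => ⟨U, hU, hl.trans hW⟩, fun _ ⟨U, hU, hl⟩ _ ⟨U', hU', hl'⟩ =>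
        ⟨_, hF.1.2.2.2 U hU U' hU', le_inf ((inf_le_inf_left _ inf_le_left).trans hl)
          ((inf_le_inf_left _ inf_le_right).trans hl')⟩⟩
  exact hF.2 h1 (fun U hU => ⟨U, hU, inf_le_right⟩) ⟨⊤, hF.1.1, inf_le_left⟩

lemma sep (hF : Maximal IsFil F) {a b : V ≃ₗ[K] V} (h : tr F a ≠ tr F b) :
    ∃ X ∈ F, ∀ x ∈ X, ∀ y ∈ X, a x = b y → x = 0 := by
  by_contra hn
  push Not at hn
  refine h (Set.Subset.antisymm (fun U hU => mem_tr.2 (mem_max hF fun W hW hd => ?_))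
    fun U hU => mem_tr.2 (mem_max hF fun W hW hd => ?_))
  · obtain ⟨x, hx, y, hy, e, h0⟩ := hn _ (hF.1.2.2.2 _ (mem_tr.1 hU) _ hW)
    have : y = 0 := disjoint_def.1 hd y (show b y ∈ U from e ▸ hx.1) hy.2
    exact h0 (by simpa [this] using e)
  · obtain ⟨x, hx, y, hy, e, h0⟩ := hn _ (hF.1.2.2.2 _ (mem_tr.1 hU) _ hW)
    exact h0 (disjoint_def.1 hd x (show a x ∈ U from e ▸ hy.1) hx.2)

lemma small (hV : ¬ Module.Finite K V) (hF : Maximal IsFil F) {X : Submodule K V} (hX : X ∈ F)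
    (h : Module.rank K V ≤ Module.rank K X) :
    ∃ X' ∈ F, ∃ Y ≤ X, Disjoint Y X' ∧ Module.rank K V ≤ Module.rank K Y := by
  obtain ⟨Y₁, l1, Y₂, l2, hd, r1, r2⟩ := two hV h
  by_cases h1 : Y₁ ∈ F
  · exact ⟨Y₁, h1, Y₂, l2, hd.symm, r2⟩
  · have := mt (mem_max hF) h1
    push Not at this
    obtain ⟨U, hU, hd⟩ := this
    exact ⟨U, hU, Y₁, l1, hd, r1⟩

/-- the map (x, y) to a x + b y -/
def cop (X : Submodule K V) (a b : V ≃ₗ[K] V) : (X × X) →ₗ[K] V :=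
  (a.toLinearMap ∘ₗ X.subtype).coprod (b.toLinearMap ∘ₗ X.subtype)

lemma pair (hV : ¬ Module.Finite K V) (hF : Maximal IsFil F) {a b : V ≃ₗ[K] V}
    (h : tr F a ≠ tr F b) : ∃ X ∈ F, ∀ Z ≤ X,
      Function.Injective (cop Z a b) ∧ Big (LinearMap.range (cop Z a b)) := by
  obtain ⟨X, hX, hs⟩ := sep hF h
  have hinj : ∀ Z ≤ X, Function.Injective (cop Z a b) := fun Z hZ => by
    rw [injective_iff_map_eq_zero]
    rintro ⟨x, y⟩ h0
    have h0 : a x + b y = 0 := h0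
    have hx : (x : V) = 0 := hs x (hZ x.2) (-y) (X.neg_mem (hZ y.2))
      (by rw [map_neg]; exact eq_neg_of_add_eq_zero_left h0)
    have hy : (y : V) = 0 := by simpa [hx] using h0
    exact Prod.ext (Subtype.ext hx) (Subtype.ext hy)
  by_cases hr : Module.rank K V ≤ Module.rank K X
  · obtain ⟨X', hX', Y, hY, hd, r⟩ := small hV hF hX hr
    refine ⟨X ⊓ X', hF.1.2.2.2 _ hX _ hX', fun Z hZ => ⟨hinj Z (hZ.trans inf_le_left),
      Y.map a.toLinearMap, disjoint_def.2 ?_, by rwa [LinearEquiv.rank_map_eq]⟩⟩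
    rintro _ ⟨y, hy, rfl⟩ ⟨⟨x, x'⟩, e⟩
    have e : a x + b x' = a y := e
    have := hs (y - x) (X.sub_mem (hY hy) (hZ x.2).1) x' (hZ x'.2).1
      (by rw [map_sub, ← e]; simp)
    rw [disjoint_def.1 hd y hy (by rw [sub_eq_zero.1 this]; exact (hZ x.2).2), map_zero]
  · refine ⟨X, hX, fun Z hZ => ⟨hinj Z hZ, big_of_lt hV ?_⟩⟩
    have := (Submodule.rank_mono hZ).trans_lt (not_le.1 hr)
    rw [rank_range_of_injective _ (hinj Z hZ), rank_prod']
    exact Cardinal.add_lt_of_lt (inf_rank hV) this this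

theorem result (hV : ¬ Module.Finite K V) (F : Set (Submodule K V)) (hF : Maximal IsFil F)
    (k : ℕ) : KTrans F k ↔ k ≤ 2 := by
  constructor
  · intro h
    by_contra hk
    obtain ⟨n, rfl⟩ : ∃ n, k = n + 3 := ⟨k - 3, by omega⟩
    obtain ⟨X, hX, Y, -, hd, r⟩ := small hV hF hF.1.1 (rank_top K V).ge
    obtain ⟨e⟩ := exists_e hV
    have hext : ∀ j : V →ₗ[K] (ℕ →₀ V), Function.Injective j → (∀ v, j v 0 = 0) →
        ∃ g : V ≃ₗ[K] V, ∀ x ∈ X, g x = e (j x) := fun j hj h0 => by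
      obtain ⟨g, hg⟩ := Pool.Agent.H.MP_5cf805_al.ext X.subtype (e.toLinearMap ∘ₗ j ∘ₗ X.subtype) X.injective_subtype
        (e.injective.comp (hj.comp X.injective_subtype)) ⟨Y, by simpa using hd, r⟩
        ⟨LinearMap.range (e.toLinearMap ∘ₗ Finsupp.lsingle 0), disjoint_def.2 (by
          rintro _ ⟨v, rfl⟩ ⟨x, hx⟩
          have := DFunLike.congr_fun (e.injective hx) 0
          simp [h0] at this
          simp [← this]),
          (rank_range_of_injective (e.toLinearMap ∘ₗ Finsupp.lsingle 0)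
            (e.injective.comp (Finsupp.single_injective 0))).ge⟩
      exact ⟨g, fun x hx => hg ⟨x, hx⟩⟩
    choose a ha using fun i : ℕ => hext (Finsupp.lsingle (i + 1)) (Finsupp.single_injective _)
      fun v => by simp
    obtain ⟨c, hc⟩ := hext (Finsupp.lsingle 1 + Finsupp.lsingle 2)
      (fun v w h => by simpa using DFunLike.congr_fun h 1) fun v => by simp
    have nz : ∀ Z ∈ F, ∃ x ∈ Z, x ≠ 0 := fun Z hZ =>
      (Submodule.ne_bot_iff Z).1 fun h => hF.1.2.1 (h ▸ hZ)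
    have mm : ∀ g : V ≃ₗ[K] V, X.map g.toLinearMap ∈ tr F g := fun g => ⟨X, hX, rfl⟩
    have eqv : ∀ g g' : V ≃ₗ[K] V, tr F g = tr F g' → ∃ x ∈ X, x ≠ 0 ∧ ∃ y ∈ X, g' y = g x :=
      fun g g' h => by
        obtain ⟨x, hx, h0⟩ := nz _ (hF.1.2.2.2 _ hX _ (mem_tr.1 (h ▸ mm g')))
        exact ⟨x, hx.1, h0, hx.2⟩
    have d1 : ∀ i j, tr F (a i) = tr F (a j) → i = j := fun i j h => by
      obtain ⟨x, hx, h0, y, hy, e'⟩ := eqv _ _ h
      rw [ha _ _ hx, ha _ _ hy] at e'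
      by_contra hn
      have := DFunLike.congr_fun (e.injective e') (i + 1)
      simp [hn] at this
      exact h0 this.symm
    have d2 : ∀ i, tr F c ≠ tr F (a i) := fun i h => by
      obtain ⟨x, hx, h0, y, hy, e'⟩ := eqv _ _ h
      rw [hc _ hx, ha _ _ hy] at e'
      have h1 := DFunLike.congr_fun (e.injective e') 1
      have h2 := DFunLike.congr_fun (e.injective e') 2
      rcases i with _ | i
      · simp at h2; exact h0 h2.symm
      · simp at h1; exact h0 h1.symm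
    obtain ⟨g, hg⟩ := h (fun i => if i.1 = 2 then c else a i) (fun i => a i) (fun i j h => by
        dsimp only at h
        split_ifs at h with hi hj hj
        · exact Fin.ext (hi.trans hj.symm)
        · exact absurd h (d2 _)
        · exact absurd h.symm (d2 _)
        · exact Fin.ext (d1 _ _ h)) fun i j h => Fin.ext (d1 _ _ h)
    have g0 := hg ⟨0, by omega⟩
    have g1 := hg ⟨1, by omega⟩
    have g2 := hg ⟨2, by omega⟩
    simp only [tr_tr, OfNat.zero_ne_ofNat, OfNat.one_ne_ofNat, if_false, if_true] at g0 g1 g2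
    obtain ⟨x, ⟨⟨⟨hx, y0, hy0, e0⟩, y1, hy1, e1⟩, y2, hy2, e2⟩, h0⟩ := nz _ (hF.1.2.2.2 _
      (hF.1.2.2.2 _ (hF.1.2.2.2 _ hX _ (mem_tr.1 (g0 ▸ mm (a 0)))) _ (mem_tr.1 (g1 ▸ mm (a 1))))
      _ (mem_tr.1 (g2 ▸ mm (a 2))))
    have e0 : a 0 y0 = g (a 0 x) := e0
    have e1 : a 1 y1 = g (a 1 x) := e1
    have e2 : a 2 y2 = g (c x) := e2
    have e3 : c x = a 0 x + a 1 x := by rw [hc _ hx, ha _ _ hx, ha _ _ hx, ← map_add]; rfl
    rw [e3, map_add, ← e0, ← e1, ha _ _ hy0, ha _ _ hy1, ha _ _ hy2, ← map_add] at e2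
    have := DFunLike.congr_fun (e.injective e2) 1
    simp at this
    rw [← this] at e0
    exact h0 (by simpa using e0.symm)
  · intro hk a b ha hb
    obtain rfl | rfl | rfl : k = 0 ∨ k = 1 ∨ k = 2 := by omega
    · exact ⟨.refl K V, fun i => i.elim0⟩
    · refine ⟨(a 0).symm.trans (b 0), fun i => ?_⟩
      rw [Subsingleton.elim i 0, tr_tr]
      congr 1; ext; simp
    · obtain ⟨X, hX, h⟩ := pair hV hF (ha.ne (show (0 : Fin 2) ≠ 1 by decide))
      obtain ⟨X', hX', h'⟩ := pair hV hF (hb.ne (show (0 : Fin 2) ≠ 1 by decide))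
      obtain ⟨g, hg⟩ := Pool.Agent.H.MP_5cf805_al.ext _ _ (h _ inf_le_left).1 (h' _ inf_le_right).1 (h _ inf_le_left).2
        (h' _ inf_le_right).2
      refine ⟨g, fun i => ?_⟩
      rw [tr_tr]
      refine agree hF.1 (hF.1.2.2.2 _ hX _ hX') fun x hx => ?_
      fin_cases i
      · simpa [cop] using hg (⟨x, hx⟩, 0)
      · simpa [cop] using hg (0, ⟨x, hx⟩)

end Pool.Agent.Results.MP_5cf805_al.Filters
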