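import Mathlib
import Pool.Agent.H.MP_5cf805_al.A

set_option autoImplicit false
open Submodule Cardinal Pool.Agent.H.MP_5cf805_al

namespace Pool.Agent.Results.MP_5cf805_al.Ideals

universe u v
variable {K : Type v} [Field K] {V : Type u} [AddCommGroup V] [Module K V]

def IsIdl (F : Set (Submodule K V)) : Prop :=
  ⊥ ∈ F ∧ ⊤ ∉ F ∧ (∀ U ∈ F, ∀ W, W ≤ U → W ∈ F) ∧ ∀ U ∈ F, ∀ W ∈ F, U ⊔ W ∈ F

/-- the translate of F by g -/
def tr (F : Set (Submodule K V)) (g : V ≃ₗ[K] V) : Set (Submodule K V) :=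
  Submodule.map g.toLinearMap '' F

/-- GL(V) is k-transitive on the translates of F -/
def KTrans (F : Set (Submodule K V)) (k : ℕ) : Prop :=
  ∀ a b : Fin k → V ≃ₗ[K] V, Function.Injective (fun i => tr F (a i)) →
    Function.Injective (fun i => tr F (b i)) → ∃ g, ∀ i, tr (tr F (a i)) g = tr F (b i)

variable {F : Set (Submodule K V)}

lemma mem_tr {g : V ≃ₗ[K] V} {U : Submodule K V} : U ∈ tr F g ↔ U.comap g.toLinearMap ∈ F :=
  ⟨by rintro ⟨X, hX, rfl⟩; rwa [comap_map_eq_of_injective g.injective],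
    fun h => ⟨_, h, map_comap_eq_of_surjective g.surjective _⟩⟩

lemma tr_tr (a g : V ≃ₗ[K] V) : tr (tr F a) g = tr F (a.trans g) := by
  ext U; simp only [mem_tr]; rfl

lemma ext' {W : Type*} [AddCommGroup W] [Module K W] (φ ψ : V →ₗ[K] W)
    (hφ : Function.Surjective φ) (hψ : Function.Surjective ψ)
    (bφ : Module.rank K V ≤ Module.rank K (LinearMap.ker φ))
    (bψ : Module.rank K V ≤ Module.rank K (LinearMap.ker ψ)) :
    ∃ g : V ≃ₗ[K] V, ∀ v, ψ (g v) = φ v := by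
  have key : ∀ φ : V →ₗ[K] W, Function.Surjective φ →
      ∃ E : (LinearMap.ker φ × W) ≃ₗ[K] V, ∀ p, φ (E p) = p.2 := fun φ hφ => by
    obtain ⟨C, hC⟩ := (LinearMap.ker φ).exists_isCompl
    have hb : Function.Bijective (φ ∘ₗ C.subtype) := by
      refine ⟨(injective_iff_map_eq_zero _).2 fun c hc =>
        Subtype.ext (disjoint_def.1 hC.disjoint c hc c.2), fun w => ?_⟩
      obtain ⟨v, rfl⟩ := hφ w
      obtain ⟨k, hk, c, hc, rfl⟩ := mem_sup.1 (hC.sup_eq_top ▸ mem_top : v ∈ LinearMap.ker φ ⊔ C)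
      exact ⟨⟨c, hc⟩, by simp [LinearMap.mem_ker.1 hk]⟩
    refine ⟨((LinearEquiv.refl K _).prodCongr (LinearEquiv.ofBijective _ hb).symm).trans
      (prodEquivOfIsCompl _ _ hC), fun p => ?_⟩
    have : φ ((LinearEquiv.ofBijective _ hb).symm p.2 : C) = p.2 :=
      (LinearEquiv.ofBijective _ hb).apply_symm_apply p.2
    simp [this]
  obtain ⟨E, hE⟩ := key φ hφ
  obtain ⟨E', hE'⟩ := key ψ hψ
  obtain ⟨e⟩ := Module.nonempty_linearEquiv_iff_rank_eq.2
    ((le_antisymm (Submodule.rank_le _) bφ).trans (le_antisymm (Submodule.rank_le _) bψ).symm)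
  refine ⟨E.symm.trans ((e.prodCongr (.refl K W)).trans E'), fun v => ?_⟩
  have := hE (E.symm v)
  rw [E.apply_symm_apply] at this
  simp [hE', this]

lemma agree (hF : IsIdl F) {X : Submodule K V} (hX : X ∈ F) {a b : V ≃ₗ[K] V}
    (h : ∀ v, a.symm v - b.symm v ∈ X) : tr F a = tr F b := by
  have key : ∀ a b : V ≃ₗ[K] V, (∀ v, a.symm v - b.symm v ∈ X) → tr F a ⊆ tr F b :=
    fun a b h U hU => mem_tr.2 (hF.2.2.1 _ (hF.2.2.2 _ (mem_tr.1 hU) _ hX) _ fun x hx =>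
      mem_sup.2 ⟨a.symm (b x), by simpa using hx, _, X.neg_mem (h (b x)), by simp⟩)
  exact (key a b h).antisymm (key b a fun v => by simpa using X.neg_mem (h v))

lemma mem_max (hF : Maximal IsIdl F) {Y : Submodule K V} (h : ∀ U ∈ F, Y ⊔ U ≠ ⊤) :
    Y ∈ F := by
  have h1 : IsIdl {Z | ∃ U ∈ F, Z ≤ Y ⊔ U} :=
    ⟨⟨⊥, hF.1.1, bot_le⟩, fun ⟨U, hU, hl⟩ => h U hU (top_le_iff.1 hl),
      fun _ ⟨U, hU, hl⟩ _ hW => ⟨U, hU, hW.trans hl⟩, fun _ ⟨U, hU, hl⟩ _ ⟨U', hU', hl'⟩ =>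
        ⟨_, hF.1.2.2.2 U hU U' hU', sup_le (hl.trans (sup_le_sup_left le_sup_left _))
          (hl'.trans (sup_le_sup_left le_sup_right _))⟩⟩
  exact hF.2 h1 (fun U hU => ⟨U, hU, le_sup_right⟩) ⟨⊥, hF.1.1, le_sup_left⟩

lemma sep (hF : Maximal IsIdl F) {a b : V ≃ₗ[K] V} (h : tr F a ≠ tr F b) :
    ∃ X ∈ F, ∀ v, ∃ x ∈ X, ∃ y ∈ X, a x + b y = v := by
  have key : ∀ a b : V ≃ₗ[K] V, (¬ ∃ X ∈ F, ∀ v, ∃ x ∈ X, ∃ y ∈ X, a x + b y = v) →
      tr F a ⊆ tr F b := fun a b hn U hU => mem_tr.2 (mem_max hF fun W hW hd =>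
    hn ⟨_, hF.1.2.2.2 _ (mem_tr.1 hU) _ hW, fun v => by
      obtain ⟨p, hp, q, hq, e⟩ := mem_sup.1 (hd ▸ mem_top : b.symm v ∈ _)
      exact ⟨a.symm (b p), mem_sup_left (by simpa using hp), q, mem_sup_right hq, by
        rw [a.apply_symm_apply, ← map_add, e, b.apply_symm_apply]⟩⟩)
  by_contra hn
  refine h ((key a b hn).antisymm (key b a fun ⟨X, hX, h⟩ => hn ⟨X, hX, fun v => ?_⟩))
  obtain ⟨x, hx, y, hy, e⟩ := h v
  exact ⟨y, hy, x, hx, (add_comm _ _).trans e⟩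

lemma small (hV : ¬ Module.Finite K V) (hF : Maximal IsIdl F) {X : Submodule K V}
    (h : Module.rank K V ≤ Module.rank K (V ⧸ X)) :
    ∃ U ∈ F, ∃ p : V →ₗ[K] V, (∀ x ∈ X, p x = 0) ∧ ∀ v, ∃ u ∈ U, p u = v := by
  obtain ⟨e⟩ := exists_e hV
  obtain ⟨f⟩ := Module.nonempty_linearEquiv_iff_rank_eq.2 (le_antisymm (rank_quotient_le X) h)
  let p : ℕ → V →ₗ[K] V := fun i =>
    Finsupp.lapply i ∘ₗ e.symm.toLinearMap ∘ₗ f.toLinearMap ∘ₗ X.mkQ
  have h0 : ∀ i, ∀ x ∈ X, p i x = 0 := fun i x hx => by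
    simp [p, (Quotient.mk_eq_zero X).2 hx]
  have hs : ∀ i v, ∃ u, ∀ j, p j u = Finsupp.single i v j := fun i v => by
    obtain ⟨u, hu⟩ := X.mkQ_surjective (f.symm (e (Finsupp.single i v)))
    exact ⟨u, fun j => by simp [p, hu]⟩
  by_cases h1 : LinearMap.ker (p 0) ∈ F
  · refine ⟨_, h1, p 1, h0 1, fun v => ?_⟩
    obtain ⟨u, hu⟩ := hs 1 v
    exact ⟨u, by simp [hu], by simp [hu]⟩
  · have := mt (mem_max hF) h1
    push Not at this
    obtain ⟨U, hU, hd⟩ := this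
    refine ⟨U, hU, p 0, h0 0, fun v => ?_⟩
    obtain ⟨u, hu⟩ := hs 0 v
    obtain ⟨k, hk, c, hc, e⟩ := mem_sup.1 (hd ▸ mem_top : u ∈ _)
    refine ⟨c, hc, ?_⟩
    have := hu 0
    rwa [← e, map_add, LinearMap.mem_ker.1 hk, zero_add, Finsupp.single_eq_same] at this

/-- the map v to the classes of a⁻¹ v and b⁻¹ v -/
def pr (X : Submodule K V) (a b : V ≃ₗ[K] V) : V →ₗ[K] (V ⧸ X) × (V ⧸ X) :=
  (X.mkQ ∘ₗ a.symm.toLinearMap).prod (X.mkQ ∘ₗ b.symm.toLinearMap)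

lemma mem_ker_pr {X : Submodule K V} {a b : V ≃ₗ[K] V} {v : V} :
    v ∈ LinearMap.ker (pr X a b) ↔ a.symm v ∈ X ∧ b.symm v ∈ X := by
  simp [pr]

lemma pair (hV : ¬ Module.Finite K V) (hF : Maximal IsIdl F) {a b : V ≃ₗ[K] V}
    (h : tr F a ≠ tr F b) : ∃ X ∈ F, ∀ Z, X ≤ Z → Function.Surjective (pr Z a b) ∧
      Module.rank K V ≤ Module.rank K (LinearMap.ker (pr Z a b)) := by
  obtain ⟨X, hX, hs⟩ := sep hF h
  have hsur : ∀ Z, X ≤ Z → Function.Surjective (pr Z a b) := fun Z hZ => by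
    rintro ⟨p, q⟩
    obtain ⟨p, rfl⟩ := Z.mkQ_surjective p
    obtain ⟨q, rfl⟩ := Z.mkQ_surjective q
    obtain ⟨x, hx, y, hy, e⟩ := hs (a p - b q)
    refine ⟨a p - a x, Prod.ext ((Submodule.Quotient.eq Z).2 ?_) ((Submodule.Quotient.eq Z).2 ?_)⟩
    · simpa using hZ hx
    · rw [show a p - a x = b q + b y by linear_combination (norm := abel1) -e]
      simpa using hZ hy
  by_cases hr : Module.rank K V ≤ Module.rank K (V ⧸ X)
  · obtain ⟨U, hU, p, h0, hp⟩ := small hV hF hr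
    refine ⟨X ⊔ U, hF.1.2.2.2 _ hX _ hU, fun Z hZ => ⟨hsur Z (le_sup_left.trans hZ),
      LinearMap.rank_le_of_surjective (p ∘ₗ a.symm.toLinearMap ∘ₗ Submodule.subtype _) fun v => ?_⟩⟩
    obtain ⟨u, hu, rfl⟩ := hp v
    obtain ⟨x, hx, y, hy, e⟩ := hs (a u)
    refine ⟨⟨a (u - x), mem_ker_pr.2 ⟨?_, ?_⟩⟩, by simp [h0 x hx]⟩
    · simpa using Z.sub_mem (hZ (mem_sup_right hu)) (hZ (mem_sup_left hx))
    · rw [map_sub, ← e]
      simpa using hZ (mem_sup_left hy)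
  · refine ⟨X, hX, fun Z hZ => ⟨hsur Z hZ, not_lt.1 fun hl => ?_⟩⟩
    have h1 : Module.rank K (V ⧸ Z) < Module.rank K V :=
      (LinearMap.rank_le_of_surjective _ (factor_surjective hZ)).trans_lt (not_le.1 hr)
    have h2 := (pr Z a b).rank_range_add_rank_ker
    have h3 := Submodule.rank_le (LinearMap.range (pr Z a b))
    rw [rank_prod'] at h3
    exact absurd h2 (Cardinal.add_lt_of_lt (inf_rank hV)
      (h3.trans_lt (Cardinal.add_lt_of_lt (inf_rank hV) h1 h1)) hl).ne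

theorem result (hV : ¬ Module.Finite K V) (F : Set (Submodule K V)) (hF : Maximal IsIdl F)
    (k : ℕ) : KTrans F k ↔ k ≤ 2 := by
  constructor
  · intro h
    by_contra hk
    obtain ⟨n, rfl⟩ : ∃ n, k = n + 3 := ⟨k - 3, by omega⟩
    obtain ⟨X, hX, p, -, hp⟩ := small (X := ⊥) hV hF (quotEquivOfEqBot _ rfl).rank_eq.ge
    have r : Module.rank K V ≤ Module.rank K X :=
      LinearMap.rank_le_of_surjective (p ∘ₗ X.subtype) fun v => by
        obtain ⟨u, hu, rfl⟩ := hp v; exact ⟨⟨u, hu⟩, rfl⟩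
    obtain ⟨e⟩ := exists_e hV
    have hext : ∀ j : (ℕ →₀ V) →ₗ[K] V, Function.Surjective j →
        (∀ v, j (Finsupp.single 0 v) = 0) →
        ∃ g : V ≃ₗ[K] V, ∀ w, g.symm (e w) - j w ∈ X := fun j hj h0 => by
      obtain ⟨g, hg⟩ := ext' X.mkQ (X.mkQ ∘ₗ j ∘ₗ e.symm.toLinearMap) X.mkQ_surjective
        (X.mkQ_surjective.comp (hj.comp e.symm.surjective)) (by rwa [ker_mkQ])
        (LinearMap.rank_le_of_injective (LinearMap.codRestrict _
          (e.toLinearMap ∘ₗ Finsupp.lsingle 0) fun v => by simp [h0])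
          fun v w h => Finsupp.single_injective 0 (e.injective (congrArg Subtype.val h)))
      refine ⟨g, fun w => (Submodule.Quotient.eq X).1 ?_⟩
      simpa using (hg (g.symm (e w))).symm
    choose a ha using fun i : ℕ => hext (Finsupp.lapply (i + 1))
      (fun v => ⟨Finsupp.single (i + 1) v, by simp⟩) fun v => by simp
    obtain ⟨c, hc⟩ := hext (Finsupp.lapply 1 + Finsupp.lapply 2)
      (fun v => ⟨Finsupp.single 1 v, by simp⟩) fun v => by simp
    have ha0 : ∀ i w, w (i + 1) = 0 → (a i).symm (e w) ∈ X := fun i w h => by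
      simpa [h] using ha i w
    have hc0 : ∀ w, w 1 + w 2 = 0 → c.symm (e w) ∈ X := fun w h => by simpa [h] using hc w
    have nt : ∀ Z ∈ F, ¬ ∀ v, v ∈ Z := fun Z hZ h => hF.1.2.1 (eq_top_iff'.2 h ▸ hZ)
    have mm : ∀ g : V ≃ₗ[K] V, X.comap g.symm.toLinearMap ∈ tr F g := fun g =>
      mem_tr.2 (hF.1.2.2.1 _ hX _ fun x hx => by simpa using hx)
    have eqv : ∀ g g' : V ≃ₗ[K] V, tr F g = tr F g' →
        ¬ ∀ w, ∃ w', g'.symm (e w') ∈ X ∧ g.symm (e (w - w')) ∈ X := fun g g' h hn =>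
      nt _ (hF.1.2.2.2 _ hX _ (mem_tr.1 (h ▸ mm g'))) fun v => by
        obtain ⟨w', h1, h2⟩ := hn (e.symm (g v))
        exact mem_sup.2 ⟨_, h2, g.symm (e w'), by simpa using h1, by simp⟩
    have d1 : ∀ i j, tr F (a i) = tr F (a j) → i = j := fun i j h => by
      by_contra hn
      exact eqv _ _ h fun w => ⟨Finsupp.single (i + 1) (w (i + 1)),
        ha0 _ _ (by simp [Ne.symm hn]), ha0 _ _ (by simp)⟩
    have d2 : ∀ i, tr F c ≠ tr F (a i) := fun i h => by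
      refine eqv _ _ h fun w => ?_
      rcases i with _ | i
      · exact ⟨Finsupp.single 2 (w 1 + w 2), ha0 _ _ (by simp), hc0 _ (by simp)⟩
      · exact ⟨Finsupp.single 1 (w 1 + w 2), ha0 _ _ (by simp), hc0 _ (by simp)⟩
    obtain ⟨g, hg⟩ := h (fun i => a i) (fun i => if i.1 = 2 then c else a i)
      (fun i j h => Fin.ext (d1 _ _ h)) fun i j h => by
        dsimp only at h
        split_ifs at h with hi hj hj
        · exact Fin.ext (hi.trans hj.symm)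
        · exact absurd h (d2 _)
        · exact absurd h.symm (d2 _)
        · exact Fin.ext (d1 _ _ h)
    have g0 := hg ⟨0, by omega⟩
    have g1 := hg ⟨1, by omega⟩
    have g2 := hg ⟨2, by omega⟩
    simp only [tr_tr, OfNat.zero_ne_ofNat, OfNat.one_ne_ofNat, if_false, if_true] at g0 g1 g2
    refine nt _ (hF.1.2.2.2 _ (hF.1.2.2.2 _ (hF.1.2.2.2 _ hX _ (mem_tr.1 (g0 ▸ mm _))) _
      (mem_tr.1 (g1 ▸ mm _))) _ (mem_tr.1 (g2 ▸ mm _))) fun v => ?_
    set w := e.symm (g.symm (c v)) with hw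
    set s := Finsupp.single 3 (w 3) with hs
    set z := e.symm (g (e s)) with hz
    have hv : v = ((c.symm (e z) - (z 1 + z 2)) - ((a 0).symm (e z) - z 1) -
        ((a 1).symm (e z) - z 2) + (a 0).symm (e z) + (a 1).symm (e z)) +
        c.symm (g (e (w - s))) := by
      simp [hw, hz]
      abel
    rw [hv]
    refine add_mem (mem_sup_left (add_mem (mem_sup_left (add_mem (mem_sup_left
      (sub_mem (sub_mem (hc z) (ha 0 z)) (ha 1 z))) (mem_sup_right ?_))) (mem_sup_right ?_)))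
      (mem_sup_right ?_)
    · simpa [hz] using ha0 0 s (by simp [hs])
    · simpa [hz] using ha0 1 s (by simp [hs])
    · simpa [-map_sub] using ha0 2 (w - s) (by simp [hs])
  · intro hk a b ha hb
    obtain rfl | rfl | rfl : k = 0 ∨ k = 1 ∨ k = 2 := by omega
    · exact ⟨.refl K V, fun i => i.elim0⟩
    · refine ⟨(a 0).symm.trans (b 0), fun i => ?_⟩
      rw [Subsingleton.elim i 0, tr_tr]
      congr 1; ext; simp
    · obtain ⟨X, hX, h⟩ := pair hV hF (ha.ne (show (0 : Fin 2) ≠ 1 by decide))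
      obtain ⟨X', hX', h'⟩ := pair hV hF (hb.ne (show (0 : Fin 2) ≠ 1 by decide))
      obtain ⟨g, hg⟩ := ext' _ _ (h _ le_sup_left).1 (h' _ le_sup_right).1 (h _ le_sup_left).2
        (h' _ le_sup_right).2
      refine ⟨g, fun i => ?_⟩
      rw [tr_tr]
      refine agree hF.1 (hF.1.2.2.2 _ hX _ hX') fun v => (Submodule.Quotient.eq _).1 ?_
      fin_cases i
      · simpa [pr] using congrArg Prod.fst (hg (g.symm v)).symm
      · simpa [pr] using congrArg Prod.snd (hg (g.symm v)).symm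

end Pool.Agent.Results.MP_5cf805_al.Ideals
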